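import Pool.Agent.H360R3.Cpt

/-!
# Compactifications need not preserve the hereditary cellularity

For every infinite cardinal `τ` there is a Tychonoff space `X` with `#X ≤ τ` (so `cc(X) ≤ τ`) all of
whose compactifications `K` satisfy `cc(K) > τ`: every dense subset of cardinality `≤ τ` of a Cantor
cube of weight `2 ^ τ` has this property, because each of its compactifications contains a free
sequence of length `τ⁺`, whose successor terms form a discrete subspace of cardinality `τ⁺`.
-/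

set_option autoImplicit false
open Topology

namespace Pool.Agent.Results.MP_1d4a49_gt.AllTau

universe u

/-- The cellularity `c(X)`: the least infinite cardinal `κ` such that every family of pairwise
disjoint nonempty open subsets of `X` has cardinality at most `κ`. -/
noncomputable def cellularity (X : Type u) [TopologicalSpace X] : Cardinal.{u} :=
  sInf {κ | Cardinal.aleph0 ≤ κ ∧ ∀ F : Set (Set X), (∀ U ∈ F, IsOpen U ∧ U.Nonempty) →
    (∀ U ∈ F, ∀ V ∈ F, U ≠ V → Disjoint U V) → Cardinal.mk F ≤ κ}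

/-- The hereditary cellularity `cc(X) = sup {c(Y) : Y ⊆ X}`. -/
noncomputable def hereditaryCellularity (X : Type u) [TopologicalSpace X] : Cardinal.{u} :=
  ⨆ Y : Set X, cellularity Y

lemma cellularity_le (X : Type u) [TopologicalSpace X] (τ : Cardinal.{u})
    (hτ : Cardinal.aleph0 ≤ τ) (hX : Cardinal.mk X ≤ τ) : cellularity X ≤ τ := by
  refine csInf_le' ⟨hτ, fun F hF hd => le_trans ?_ hX⟩
  choose g hg using fun U : F => (hF U.1 U.2).2
  refine Cardinal.mk_le_of_injective (f := g) fun U V h => ?_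
  by_contra hne
  have h1 := hd U.1 U.2 V.1 V.2 fun h' => hne (Subtype.ext h')
  exact Set.disjoint_left.mp h1 (hg U) (h ▸ hg V)

lemma le_cellularity {W : Type u} (X : Type u) [TopologicalSpace X] (h : W → X)
    (hO : ∀ ξ, ∃ O : Set X, IsOpen O ∧ h ξ ∈ O ∧ ∀ ζ, h ζ ∈ O → ζ = ξ) :
    Cardinal.mk W ≤ cellularity (Set.range h) := by
  choose O hO1 hO2 hO3 using hO
  refine le_csInf ⟨max Cardinal.aleph0 (Cardinal.mk (Set (Set.range h))), le_max_left _ _,
    fun F _ _ => (Cardinal.mk_set_le F).trans (le_max_right _ _)⟩ ?_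
  rintro κ ⟨-, hκ⟩
  let G : W → Set (Set.range h) := fun ξ => Subtype.val ⁻¹' (O ξ)
  have hG : Function.Injective G := by
    intro ξ ζ hξζ
    have h1 : (⟨h ξ, ξ, rfl⟩ : Set.range h) ∈ G ξ := hO2 ξ
    rw [hξζ] at h1
    exact hO3 ζ ξ h1
  have h1 := hκ (Set.range G) ?_ ?_
  · rwa [Cardinal.mk_range_eq G hG] at h1
  · rintro _ ⟨ξ, rfl⟩
    exact ⟨(hO1 ξ).preimage continuous_subtype_val, ⟨⟨h ξ, ξ, rfl⟩, hO2 ξ⟩⟩
  · rintro _ ⟨ξ, rfl⟩ _ ⟨ζ, rfl⟩ hne
    rw [Set.disjoint_left]
    rintro ⟨_, η, rfl⟩ hz1 hz2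
    have e1 := hO3 ξ η hz1
    have e2 := hO3 ζ η hz2
    exact hne (by rw [← e1, ← e2])

/-- For every infinite cardinal `τ` there is a completely regular Hausdorff space `X` with
`cc(X) ≤ τ` (even `#X ≤ τ`) such that `cc(K) > τ` for every compactification `K` of `X`. -/
theorem result : ∀ τ : Cardinal.{u}, Cardinal.aleph0 ≤ τ →
    ∃ (X : Type u) (_ : TopologicalSpace X), T35Space X ∧ Cardinal.mk X ≤ τ ∧
      hereditaryCellularity X ≤ τ ∧
      ∀ (K : Type u) [TopologicalSpace K] [CompactSpace K] [T2Space K] (e : X → K),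
        IsEmbedding e → DenseRange e → τ < hereditaryCellularity K := by
  intro τ hτ
  obtain ⟨T, hT⟩ : ∃ T : Type u, Cardinal.mk T = τ := ⟨τ.out, Cardinal.mk_out τ⟩
  have hinf : Infinite T := Cardinal.infinite_iff.mpr (hT ▸ hτ)
  have hcard : Cardinal.mk (H360R3.Cpt.X0 T) ≤ τ := hT ▸ H360R3.Cpt.X0_card
  refine ⟨H360R3.Cpt.X0 T, inferInstance, inferInstance, hcard, ?_, ?_⟩
  · exact ciSup_le' fun Y => cellularity_le _ τ hτ ((Cardinal.mk_set_le Y).trans hcard)
  · intro K _ _ _ e he _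
    obtain ⟨h, hh⟩ := H360R3.Cpt.exists_discrete hτ hT e he
    have h1 := le_cellularity K h hh
    rw [Cardinal.mk_ord_toType] at h1
    refine lt_of_lt_of_le (Order.lt_succ τ) (h1.trans ?_)
    exact le_ciSup (f := fun Y : Set K => cellularity Y) (Cardinal.bddAbove_range _) (Set.range h)

end Pool.Agent.Results.MP_1d4a49_gt.AllTau
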